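import Pool.Agent.Helper53.PT.GoalsC
import Pool.Agent.Helper53.PT.B

/-!
# MP_705522_gt, packet TB: bounds of `f0, f1, f2` at the grid points and on the cells
-/

namespace Pool.Agent.Helper20.PT

open Pool.Agent.Helper53.PT

theorem mn_eq (a b : ℕ) : N.mn a b = min a b := by
  unfold N.mn
  by_cases h : a ≤ b
  · rw [Nat.ble_eq_true_of_le h, min_eq_left h]; rfl
  · have : Nat.ble a b = false := by
      rw [← Bool.not_eq_true, Nat.ble_eq]; exact h
    rw [this, min_eq_right (by omega)]; rfl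

theorem mx_eq (a b : ℕ) : N.mx a b = max a b := by
  unfold N.mx
  by_cases h : a ≤ b
  · rw [Nat.ble_eq_true_of_le h, max_eq_right h]; rfl
  · have : Nat.ble a b = false := by
      rw [← Bool.not_eq_true, Nat.ble_eq]; exact h
    rw [this, max_eq_left (by omega)]; rfl

theorem nadd (a b : ℕ) : Nat.add a b = a + b := by cases b <;> rfl
theorem nmul (a b : ℕ) : Nat.mul a b = a * b := by cases b <;> rfl
theorem nsub (a b : ℕ) : Nat.sub a b = a - b := by cases b <;> rfl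
theorem ndiv (a b : ℕ) : Nat.div a b = a / b := by cases b <;> rfl
theorem nsucc (a : ℕ) : Nat.succ a = a + 1 := by cases a <;> rfl

theorem shr (a n : ℕ) : Nat.shiftRight a n = a / 2 ^ n := Nat.shiftRight_eq_div_pow a n
theorem shl (a n : ℕ) : Nat.shiftLeft a n = a * 2 ^ n := Nat.shiftLeft_eq a n

/-- rounding up -/
theorem le_fl (a b : ℕ) (hb : 0 < b) : (a : ℝ) / b ≤ ((a / b + 1 : ℕ) : ℝ) := by
  have h := Nat.lt_mul_div_succ a hb
  rw [div_le_iff₀ (by exact_mod_cast hb)]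
  have h2 : (a : ℝ) < (b : ℝ) * ((a / b + 1 : ℕ) : ℝ) := by exact_mod_cast h
  linarith

theorem vR_mono {a b : ℕ} (h : a ≤ b) : vR a ≤ vR b := by
  unfold vR
  have : (a : ℝ) ≤ b := by exact_mod_cast h
  gcongr

theorem vR_nonneg (a : ℕ) : 0 ≤ vR a := by unfold vR; positivity

theorem vR_one : vR (2 ^ 40) = 1 := by unfold vR; norm_num

theorem vR_add (a b : ℕ) : vR (a + b) = vR a + vR b := by unfold vR; push_cast; ring

theorem fld_lt (T k : ℕ) : N.fld T k < 2 ^ 44 := by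
  unfold N.fld
  exact Nat.mod_lt _ (by norm_num)

/-- from a bound of the error to the two table entries -/
theorem lohi {T e : ℕ} {f : ℝ} (hf : |f| ≤ 1) (h : |f - (vR T - 1)| ≤ vR e) :
    vR (T - e) - 1 ≤ f ∧ f ≤ vR (min 17592186044415 (T + e)) - 1 := by
  rw [abs_le] at hf h
  constructor
  · by_cases hle : e ≤ T
    · have h1 : vR (T - e) = vR T - vR e := by
        unfold vR; rw [Nat.cast_sub hle]; ring
      rw [h1]; linarith [h.1]
    · have h1 : T - e = 0 := by omega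
      rw [h1]
      have h2 : vR 0 = 0 := by unfold vR; simp
      rw [h2]; linarith [hf.1]
  · rcases le_total 17592186044415 (T + e) with hle | hle
    · rw [min_eq_left hle]
      have h1 : (2 : ℝ) ≤ vR 17592186044415 := by unfold vR; norm_num
      linarith [hf.2]
    · rw [min_eq_right hle, vR_add]
      linarith [h.2]

theorem f2_le_half {θ : ℝ} (h0 : 0 < θ) (h1 : θ < 1 / 2) {x : ℝ} (hx : 0 ≤ x) :
    |f2 θ x| ≤ 1 / 2 := by
  have h := (aBD h0 h1 hx).2.2.2.2.2.1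
  have hm := mo_mono h0 h1.le le_rfl 2
  have e2 : mo (1 / 2) 2 = 3 * mo (1 / 2) 1 := by
    have := aMO.2.2 1; norm_num at this ⊢; linarith
  have e1 : mo (1 / 2) 1 = 1 := mo_one (by norm_num) (by norm_num)
  rw [e1] at e2
  linarith

theorem xR_nonneg (k : ℕ) : 0 ≤ xR k := by unfold xR aR; positivity

/-- `√(xR k) ≤ sxg k / 2^40` -/
theorem sqrt_xR (hSQ : GSQ) (k : ℕ) : √(xR k) ≤ (N.sxg k : ℝ) / 2 ^ 40 := by
  have h := (hSQ (N.xgN k * 2 ^ 54)).1
  have e : N.sxg k = N.sqU (N.xgN k * 2 ^ 54) := by unfold N.sxg; rw [shl]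
  rw [e, le_div_iff₀ (by positivity)]
  refine le_trans (le_of_eq ?_) h
  have e2 : ((N.xgN k * 2 ^ 54 : ℕ) : ℝ) = xR k * (2 ^ 40) ^ 2 := by
    unfold xR aR; push_cast; ring
  rw [e2, Real.sqrt_mul (xR_nonneg k), Real.sqrt_sq (by positivity)]

section errs

variable {A : ℕ} {B : N.Base} {θ : ℝ}

theorem err0_le (hSQ : GSQ) (hB : BaseFacts A B θ) (k : ℕ) (hk : k ≤ 1152) :
    |f0 θ (xR k) - (vR (N.fld B.T0 k) - 1)| ≤ vR (N.err0 B k) := by
  have hl := hB.l0 (xR k) (xR_nonneg k)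
  have ht := hB.t0 k hk
  set D := |f0 θ (xR k) - f0 ((A : ℝ) / 8192) (xR k)| with hD
  have tri : |f0 θ (xR k) - (vR (N.fld B.T0 k) - 1)| ≤ D + 2⁻¹ ^ 38 :=
    le_trans (abs_sub_le _ (f0 ((A : ℝ) / 8192) (xR k)) _) (by linarith)
  have e : N.err0 B k = 17 + min (((N.xgN k * N.xgN k * B.dm2) / 2 ^ 52) / 24 + 1)
      (min (146 * ((N.xgN k * N.sxg k * B.dm3) / 2 ^ 66) / 1000 + 1) (B.h * 2 ^ 31)) := by
    unfold N.err0
    rw [mn_eq, mn_eq, shr, shr, shl]
    rfl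
  refine le_trans tri ?_
  rw [e, vR_add]
  have h17 : vR 17 = 17 / 2 ^ 40 := by unfold vR; norm_num
  rw [h17]
  suffices hs : D ≤ vR (min (((N.xgN k * N.xgN k * B.dm2) / 2 ^ 52) / 24 + 1)
      (min (146 * ((N.xgN k * N.sxg k * B.dm3) / 2 ^ 66) / 1000 + 1) (B.h * 2 ^ 31))) + 1 / 2 ^ 40 by
    have : (2⁻¹ : ℝ) ^ 38 = 4 / 2 ^ 40 := by norm_num
    rw [this]; linarith
  obtain ⟨b1, b2, b3⟩ := hl
  rcases min_choice (((N.xgN k * N.xgN k * B.dm2) / 2 ^ 52) / 24 + 1)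
      (min (146 * ((N.xgN k * N.sxg k * B.dm3) / 2 ^ 66) / 1000 + 1) (B.h * 2 ^ 31)) with h | h
  · rw [h]
    refine le_trans b1 ?_
    have h1 := le_fl (N.xgN k * N.xgN k * B.dm2) (2 ^ 52 * 24) (by norm_num)
    rw [← Nat.div_div_eq_div_mul] at h1
    have h2 : xR k ^ 2 / 24 * vR B.dm2 =
        ((N.xgN k * N.xgN k * B.dm2 : ℕ) : ℝ) / ((2 ^ 52 * 24 : ℕ) : ℝ) / 2 ^ 40 := by
      unfold xR aR vR; push_cast; ring
    rw [h2]
    have h3 : ((N.xgN k * N.xgN k * B.dm2 : ℕ) : ℝ) / ((2 ^ 52 * 24 : ℕ) : ℝ) / 2 ^ 40 ≤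
        vR (N.xgN k * N.xgN k * B.dm2 / 2 ^ 52 / 24 + 1) := by
      unfold vR
      exact div_le_div_of_nonneg_right h1 (by positivity)
    linarith [show (0 : ℝ) ≤ 1 / 2 ^ 40 by positivity]
  · rw [h]
    rcases min_choice (146 * ((N.xgN k * N.sxg k * B.dm3) / 2 ^ 66) / 1000 + 1) (B.h * 2 ^ 31)
      with h' | h'
    · rw [h']
      refine le_trans b2 ?_
      set c := (N.xgN k * N.sxg k * B.dm3) / 2 ^ 66 with hc
      have h1 := le_fl (N.xgN k * N.sxg k * B.dm3) (2 ^ 66) (by norm_num)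
      have h2 := le_fl (146 * c) 1000 (by norm_num)
      have hs := sqrt_xR hSQ k
      have h3 : 0.146 * (xR k * √(xR k)) * vR B.dm3 ≤
          0.146 * (((N.xgN k * N.sxg k * B.dm3 : ℕ) : ℝ) / ((2 ^ 66 : ℕ) : ℝ)) / 2 ^ 40 := by
        calc 0.146 * (xR k * √(xR k)) * vR B.dm3
            ≤ 0.146 * (xR k * ((N.sxg k : ℝ) / 2 ^ 40)) * vR B.dm3 := by
              have := xR_nonneg k
              have := vR_nonneg B.dm3
              gcongr
          _ = 0.146 * (((N.xgN k * N.sxg k * B.dm3 : ℕ) : ℝ) / ((2 ^ 66 : ℕ) : ℝ)) / 2 ^ 40 := by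
              unfold xR aR vR; push_cast; ring
      refine le_trans h3 ?_
      unfold vR
      rw [← add_div]
      refine div_le_div_of_nonneg_right ?_ (by positivity)
      rw [← hc] at h1
      push_cast at h1 h2 ⊢
      linarith
    · rw [h']
      refine le_trans b3 ?_
      have : vR (B.h * 2 ^ 31) = (B.h : ℝ) / 512 := by unfold vR; push_cast; ring
      rw [this]
      linarith [show (0 : ℝ) ≤ 1 / 2 ^ 40 by positivity]

theorem xg_pos (hG : GGRID) {k : ℕ} (hk : k ≤ 1152) (h0 : k ≠ 0) : 0 < N.xgN k := by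
  have := hG.2.2.2.1 0 k (by omega) hk
  omega

theorem err1_le (hSQ : GSQ) (hG : GGRID) (hB : BaseFacts A B θ) (k : ℕ) (hk : k ≤ 1152) :
    |f1 θ (xR k) - (vR (N.fld B.T1 k) - 1)| ≤ vR (N.err1 B k) := by
  have hl := hB.l1 (xR k) (xR_nonneg k)
  have ht := hB.t1 k hk
  set D := |f1 θ (xR k) - f1 ((A : ℝ) / 8192) (xR k)| with hD
  have tri : |f1 θ (xR k) - (vR (N.fld B.T1 k) - 1)| ≤ D + 2⁻¹ ^ 38 :=
    le_trans (abs_sub_le _ (f1 ((A : ℝ) / 8192) (xR k)) _) (by linarith)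
  have e : N.err1 B k = 17 + min (((N.xgN k * B.dm2) / 2 ^ 26) / 6 + 1)
      (min (48 * ((N.sxg k * B.dm3) / 2 ^ 40) / 100 + 1)
        (cond (Nat.beq k 0) 1099511627776
          ((B.h * 2 ^ 31) * N.sxg k / (N.xgN k * 2 ^ 14) + 1))) := by
    unfold N.err1
    rw [mn_eq, mn_eq, shr, shr, shl, shl]
    rfl
  refine le_trans tri ?_
  rw [e, vR_add]
  have h17 : vR 17 = 17 / 2 ^ 40 := by unfold vR; norm_num
  rw [h17]
  obtain ⟨b1, b2, b3⟩ := hl
  have hD0 : 0 ≤ D := abs_nonneg _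
  set m3 := cond (Nat.beq k 0) 1099511627776
          ((B.h * 2 ^ 31) * N.sxg k / (N.xgN k * 2 ^ 14) + 1) with hm3
  suffices hs : D ≤ vR (min (((N.xgN k * B.dm2) / 2 ^ 26) / 6 + 1)
      (min (48 * ((N.sxg k * B.dm3) / 2 ^ 40) / 100 + 1) m3)) + 1 / 2 ^ 40 by
    have : (2⁻¹ : ℝ) ^ 38 = 4 / 2 ^ 40 := by norm_num
    rw [this]; linarith
  rcases min_choice (((N.xgN k * B.dm2) / 2 ^ 26) / 6 + 1)
      (min (48 * ((N.sxg k * B.dm3) / 2 ^ 40) / 100 + 1) m3) with h | h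
  · rw [h]
    refine le_trans b1 ?_
    have h1 := le_fl (N.xgN k * B.dm2) (2 ^ 26 * 6) (by norm_num)
    rw [← Nat.div_div_eq_div_mul] at h1
    have h2 : xR k / 6 * vR B.dm2 =
        ((N.xgN k * B.dm2 : ℕ) : ℝ) / ((2 ^ 26 * 6 : ℕ) : ℝ) / 2 ^ 40 := by
      unfold xR aR vR; push_cast; ring
    rw [h2]
    have h3 : ((N.xgN k * B.dm2 : ℕ) : ℝ) / ((2 ^ 26 * 6 : ℕ) : ℝ) / 2 ^ 40 ≤
        vR (N.xgN k * B.dm2 / 2 ^ 26 / 6 + 1) := by
      unfold vR
      exact div_le_div_of_nonneg_right h1 (by positivity)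
    linarith [show (0 : ℝ) ≤ 1 / 2 ^ 40 by positivity]
  · rw [h]
    rcases min_choice (48 * ((N.sxg k * B.dm3) / 2 ^ 40) / 100 + 1) m3 with h' | h'
    · rw [h']
      refine le_trans b2 ?_
      set c := (N.sxg k * B.dm3) / 2 ^ 40 with hc
      have h1 := le_fl (N.sxg k * B.dm3) (2 ^ 40) (by norm_num)
      have h2 := le_fl (48 * c) 100 (by norm_num)
      have hs := sqrt_xR hSQ k
      have h3 : 0.48 * √(xR k) * vR B.dm3 ≤
          0.48 * (((N.sxg k * B.dm3 : ℕ) : ℝ) / ((2 ^ 40 : ℕ) : ℝ)) / 2 ^ 40 := by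
        calc 0.48 * √(xR k) * vR B.dm3
            ≤ 0.48 * ((N.sxg k : ℝ) / 2 ^ 40) * vR B.dm3 := by
              have := vR_nonneg B.dm3
              gcongr
          _ = 0.48 * (((N.sxg k * B.dm3 : ℕ) : ℝ) / ((2 ^ 40 : ℕ) : ℝ)) / 2 ^ 40 := by
              unfold vR; push_cast; ring
      refine le_trans h3 ?_
      unfold vR
      rw [← add_div]
      refine div_le_div_of_nonneg_right ?_ (by positivity)
      rw [← hc] at h1
      push_cast at h1 h2 ⊢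
      linarith
    · rw [h']
      by_cases hk0 : k = 0
      · have hx : xR k = 0 := by
          subst hk0; unfold xR aR; rw [hG.1]; simp
        rw [hx] at b1
        have : D ≤ 0 := by simpa using b1
        linarith [vR_nonneg m3, show (0 : ℝ) ≤ 1 / 2 ^ 40 by positivity]
      · have hxp := xg_pos hG hk hk0
        have hbe : Nat.beq k 0 = false := by
          rw [← Bool.not_eq_true, Nat.beq_eq]; exact hk0
        have hm : m3 = (B.h * 2 ^ 31) * N.sxg k / (N.xgN k * 2 ^ 14) + 1 := by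
          rw [hm3, hbe]; rfl
        have hX : 0 < xR k := by
          unfold xR aR
          have : (0 : ℝ) < N.xgN k := by exact_mod_cast hxp
          positivity
        have hsX : 0 < √(xR k) := Real.sqrt_pos.2 hX
        have hs := sqrt_xR hSQ k
        have hsq : √(xR k) * √(xR k) = xR k := Real.mul_self_sqrt hX.le
        have h1 : D ≤ (B.h : ℝ) / 512 * ((N.sxg k : ℝ) / 2 ^ 40) / xR k := by
          rw [le_div_iff₀ hX]
          calc D * xR k = (√(xR k) * D) * √(xR k) := by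
                rw [mul_comm (√(xR k)) D, mul_assoc, hsq]
            _ ≤ (B.h : ℝ) / 512 * ((N.sxg k : ℝ) / 2 ^ 40) := by
                refine mul_le_mul b3 hs hsX.le (by positivity)
        have h2 := le_fl ((B.h * 2 ^ 31) * N.sxg k) (N.xgN k * 2 ^ 14) (by positivity)
        have h3 : (B.h : ℝ) / 512 * ((N.sxg k : ℝ) / 2 ^ 40) / xR k =
            (((B.h * 2 ^ 31) * N.sxg k : ℕ) : ℝ) / ((N.xgN k * 2 ^ 14 : ℕ) : ℝ) / 2 ^ 40 := by
          unfold xR aR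
          have : (N.xgN k : ℝ) ≠ 0 := by positivity
          push_cast
          field_simp
          norm_num
          ring
        rw [h3] at h1
        refine le_trans h1 ?_
        rw [hm]
        have h4 : (((B.h * 2 ^ 31) * N.sxg k : ℕ) : ℝ) / ((N.xgN k * 2 ^ 14 : ℕ) : ℝ) / 2 ^ 40 ≤
            vR ((B.h * 2 ^ 31) * N.sxg k / (N.xgN k * 2 ^ 14) + 1) := by
          unfold vR
          exact div_le_div_of_nonneg_right h2 (by positivity)
        linarith [show (0 : ℝ) ≤ 1 / 2 ^ 40 by positivity]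

theorem e2c_eq (B : N.Base) : N.e2c B = (88 * B.h * N.sqU (B.m2R * 2 ^ 40)) / 81920 + 1 := by
  unfold N.e2c; rw [shl, nsucc, ndiv, nmul, nmul]

theorem sqrt_m2R (hSQ : GSQ) (m : ℕ) : √(vR m) ≤ (N.sqU (m * 2 ^ 40) : ℝ) / 2 ^ 40 := by
  have h := (hSQ (m * 2 ^ 40)).1
  rw [le_div_iff₀ (by positivity)]
  refine le_trans (le_of_eq ?_) h
  have e2 : ((m * 2 ^ 40 : ℕ) : ℝ) = vR m * (2 ^ 40) ^ 2 := by
    unfold vR; push_cast; ring
  rw [e2, Real.sqrt_mul (vR_nonneg _), Real.sqrt_sq (by positivity)]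

theorem e2c_a (h S : ℕ) : 8.8 * ((S : ℝ) / 2 ^ 40) * ((h : ℝ) / 8192) =
    ((88 * h * S : ℕ) : ℝ) / ((81920 : ℕ) : ℝ) / 2 ^ 40 := by
  push_cast; ring

theorem e2c_b (h S : ℕ) : ((88 * h * S : ℕ) : ℝ) / ((81920 : ℕ) : ℝ) / 2 ^ 40 ≤
    vR ((88 * h * S) / 81920 + 1) := by
  have h2 := le_fl (88 * h * S) 81920 (by norm_num)
  unfold vR
  exact div_le_div_of_nonneg_right h2 (by positivity)

theorem e2c_le (hSQ : GSQ) (B : N.Base) :
    8.8 * √(vR B.m2R) * ((B.h : ℝ) / 8192) ≤ vR (N.e2c B) := by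
  have h1 := sqrt_m2R hSQ B.m2R
  rw [e2c_eq]
  calc 8.8 * √(vR B.m2R) * ((B.h : ℝ) / 8192)
      ≤ 8.8 * ((N.sqU (B.m2R * 2 ^ 40) : ℝ) / 2 ^ 40) * ((B.h : ℝ) / 8192) := by gcongr
    _ = ((88 * B.h * N.sqU (B.m2R * 2 ^ 40) : ℕ) : ℝ) / ((81920 : ℕ) : ℝ) / 2 ^ 40 := e2c_a _ _
    _ ≤ _ := e2c_b _ _

theorem err2_le (hSQ : GSQ) (hG : GGRID) (hB : BaseFacts A B θ) (k : ℕ) (hk : k ≤ 1152) :
    |f2 θ (xR k) - (vR (N.fld B.T2 k) - 1)| ≤ vR (N.err2 B k) := by
  have hl := hB.l2 (xR k) (xR_nonneg k)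
  have ht := hB.t2 k hk
  have a1 := f2_le_half (by linarith [hB.th0]) hB.th1 (xR_nonneg k)
  have a2 := f2_le_half (by linarith [hB.tc0]) hB.tc1 (xR_nonneg k)
  set D := |f2 θ (xR k) - f2 ((A : ℝ) / 8192) (xR k)| with hD
  have hD1 : D ≤ 1 := le_trans (abs_sub _ _) (by linarith)
  have tri : |f2 θ (xR k) - (vR (N.fld B.T2 k) - 1)| ≤ D + 2⁻¹ ^ 38 :=
    le_trans (abs_sub_le _ (f2 ((A : ℝ) / 8192) (xR k)) _) (by linarith)
  have e : N.err2 B k = 17 + min (B.dm2 / 6 + 1)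
        (cond (Nat.beq k 0) 1099511627776
          ((N.e2c B * 2 ^ 26) / (N.xgN k) + 1)) := by
    unfold N.err2
    rw [mn_eq, shl, nadd, ndiv, ndiv, nsucc, nsucc]
  refine le_trans tri ?_
  rw [e, vR_add]
  have h17 : vR 17 = 17 / 2 ^ 40 := by unfold vR; norm_num
  rw [h17]
  obtain ⟨b1, b2⟩ := hl
  have hD0 : 0 ≤ D := abs_nonneg _
  set m3 := cond (Nat.beq k 0) 1099511627776 ((N.e2c B * 2 ^ 26) / (N.xgN k) + 1) with hm3
  suffices hs : D ≤ vR (min (B.dm2 / 6 + 1) m3) by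
    have : (2⁻¹ : ℝ) ^ 38 = 4 / 2 ^ 40 := by norm_num
    rw [this]; linarith
  rcases min_choice (B.dm2 / 6 + 1) m3 with h | h
  · rw [h]
    refine le_trans b1 ?_
    have h1 := le_fl B.dm2 6 (by norm_num)
    have h2 : vR B.dm2 / 6 = (B.dm2 : ℝ) / ((6 : ℕ) : ℝ) / 2 ^ 40 := by
      unfold vR; push_cast; ring
    rw [h2]
    unfold vR
    exact div_le_div_of_nonneg_right h1 (by positivity)
  · rw [h]
    by_cases hk0 : k = 0
    · have hbe : Nat.beq k 0 = true := by rw [Nat.beq_eq]; exact hk0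
      have hm : m3 = 2 ^ 40 := by rw [hm3, hbe, cond_true]; norm_num
      rw [hm, vR_one]; exact hD1
    · have hxp := xg_pos hG hk hk0
      have hbe : Nat.beq k 0 = false := by
        rw [← Bool.not_eq_true, Nat.beq_eq]; exact hk0
      have hm : m3 = (N.e2c B * 2 ^ 26) / (N.xgN k) + 1 := by
        rw [hm3, hbe, cond_false]
      have hX : 0 < xR k := by
        unfold xR aR
        have : (0 : ℝ) < N.xgN k := by exact_mod_cast hxp
        positivity
      have h1 : D ≤ vR (N.e2c B) / xR k := by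
        rw [le_div_iff₀ hX, mul_comm]
        exact le_trans b2 (e2c_le hSQ B)
      have h2 := le_fl (N.e2c B * 2 ^ 26) (N.xgN k) hxp
      have h3 : vR (N.e2c B) / xR k = ((N.e2c B * 2 ^ 26 : ℕ) : ℝ) / (N.xgN k : ℝ) / 2 ^ 40 := by
        unfold xR aR vR
        have : (N.xgN k : ℝ) ≠ 0 := by positivity
        push_cast
        field_simp
        norm_num
      rw [h3] at h1
      refine le_trans h1 ?_
      rw [hm]
      unfold vR
      exact div_le_div_of_nonneg_right h2 (by positivity)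

end errs

/-- `am` -/
theorem am_le {f : ℝ} {l u : ℕ} (hl : vR l - 1 ≤ f) (hu : f ≤ vR u - 1) : |f| ≤ vR (N.am l u) := by
  have e : N.am l u = max (2 ^ 40 - l) (u - 2 ^ 40) := by
    unfold N.am; rw [mx_eq]; rfl
  rw [e, abs_le]
  constructor
  · have h1 : vR (2 ^ 40 - l) ≤ vR (max (2 ^ 40 - l) (u - 2 ^ 40)) := vR_mono (le_max_left _ _)
    have h2 : 1 - vR l ≤ vR (2 ^ 40 - l) := by
      by_cases h : l ≤ 2 ^ 40
      · have : vR (2 ^ 40 - l) = 1 - vR l := by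
          unfold vR; rw [Nat.cast_sub h]; push_cast; ring
        linarith
      · have : vR (2 ^ 40) ≤ vR l := vR_mono (by omega)
        rw [vR_one] at this
        linarith [vR_nonneg (2 ^ 40 - l)]
    linarith
  · have h1 : vR (u - 2 ^ 40) ≤ vR (max (2 ^ 40 - l) (u - 2 ^ 40)) := vR_mono (le_max_right _ _)
    have h2 : vR u - 1 ≤ vR (u - 2 ^ 40) := by
      by_cases h : 2 ^ 40 ≤ u
      · have : vR (u - 2 ^ 40) = vR u - 1 := by
          unfold vR; rw [Nat.cast_sub h]; push_cast; ring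
        linarith
      · have : vR u ≤ vR (2 ^ 40) := vR_mono (by omega)
        rw [vR_one] at this
        linarith [vR_nonneg (u - 2 ^ 40)]
    linarith

theorem m4_le {m : ℝ} (m4 s : ℕ) (hs : s ≤ 24) (hm : m ≤ vR m4) :
    ((2 : ℝ) ^ s / 2 ^ 26) ^ 2 / 8 * (m / 840) ≤ vR (m4 / 2 ^ (55 - 2 * s) / 840 + 1) := by
  have e5 : ((2 : ℝ) ^ s / 2 ^ 26) ^ 2 / 8 = 1 / 2 ^ (55 - 2 * s) := by
    rw [div_pow, ← pow_mul, eq_div_iff (by positivity)]
    have e6 : (2 : ℝ) ^ (55 - 2 * s) * 2 ^ (s * 2) = 2 ^ 55 := by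
      rw [← pow_add]; congr 1; omega
    calc (2 : ℝ) ^ (s * 2) / (2 ^ 26) ^ 2 / 8 * 2 ^ (55 - 2 * s)
        = (2 ^ (55 - 2 * s) * 2 ^ (s * 2)) / ((2 ^ 26) ^ 2 * 8) := by ring
      _ = 1 := by rw [e6]; norm_num
  have hf := le_fl m4 (2 ^ (55 - 2 * s) * 840) (by positivity)
  rw [← Nat.div_div_eq_div_mul] at hf
  calc ((2 : ℝ) ^ s / 2 ^ 26) ^ 2 / 8 * (m / 840)
      ≤ ((2 : ℝ) ^ s / 2 ^ 26) ^ 2 / 8 * (vR m4 / 840) := by gcongr
    _ = (m4 : ℝ) / ((2 ^ (55 - 2 * s) * 840 : ℕ) : ℝ) / 2 ^ 40 := by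
        rw [e5]; unfold vR; push_cast; field_simp
    _ ≤ _ := by
        unfold vR
        exact div_le_div_of_nonneg_right hf (by positivity)

theorem x55_le (x : ℕ) (hx : 0 < x) :
    0.55 / aR x ≤ vR (4058283696216101355520 / (100 * x) + 1) := by
  have hf := le_fl 4058283696216101355520 (100 * x) (by positivity)
  have h6 : (0.55 : ℝ) / aR x =
      ((4058283696216101355520 : ℕ) : ℝ) / ((100 * x : ℕ) : ℝ) / 2 ^ 40 := by
    unfold aR
    have : (x : ℝ) ≠ 0 := by positivity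
    push_cast
    field_simp
    norm_num
  rw [h6]
  unfold vR
  exact div_le_div_of_nonneg_right hf (by positivity)

theorem m2_le {m : ℝ} (m2 : ℕ) (hm : m ≤ vR m2) : m / 6 ≤ vR (m2 / 6 + 1) := by
  have hf := le_fl m2 6 (by norm_num)
  calc m / 6 ≤ vR m2 / 6 := by gcongr
    _ = (m2 : ℝ) / ((6 : ℕ) : ℝ) / 2 ^ 40 := by unfold vR; push_cast; ring
    _ ≤ _ := by
        unfold vR
        exact div_le_div_of_nonneg_right hf (by positivity)

theorem xg288 : N.xgN 288 = 2 ^ 26 := by decide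

/-- the second term of `stF` -/
theorem q_le (x : ℕ) (hx : 2 ^ 26 ≤ x) : 4058283696216101355520 / (100 * x) + 1 ≤ 2 ^ 40 := by
  have : 4058283696216101355520 / (100 * x) ≤ 4058283696216101355520 / (100 * 2 ^ 26) :=
    Nat.div_le_div_left (by omega) (by norm_num)
  have e3 : 4058283696216101355520 / (100 * 2 ^ 26) = 604731395276 := by norm_num
  omega

/-- the second term -/
def sec (k : ℕ) : ℕ := if k ≤ 287 then 2 ^ 40 else 4058283696216101355520 / (100 * N.xgN k) + 1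

theorem sec_eq (k : ℕ) : cond (Nat.ble k 287) 1099511627776
    (4058283696216101355520 / (100 * N.xgN k) + 1) = sec k := by
  unfold sec
  by_cases h : k ≤ 287
  · rw [Nat.ble_eq_true_of_le h, if_pos h, cond_true]; norm_num
  · have hb : Nat.ble k 287 = false := by
      rw [← Bool.not_eq_true, Nat.ble_eq]; exact h
    rw [hb, if_neg h, cond_false]

theorem sec_le (hG : GGRID) (k : ℕ) (hk : k < 1152) : sec k ≤ 2 ^ 40 := by
  unfold sec
  split_ifs with h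
  · exact le_rfl
  · refine q_le _ ?_
    rcases Nat.lt_or_ge 288 k with h2 | h2
    · have := hG.2.2.2.1 288 k h2 hk.le
      rw [xg288] at this
      exact this.le
    · have : k = 288 := by omega
      rw [this, xg288]

theorem stF_eq (hfrc : ∀ (α : Type) (n : ℕ) (f : ℕ → α), N.frc n f = f n) (B : N.Base) (k : ℕ) :
    N.stF B k =
      min (max (N.am (N.fld (N.tTL B) k) (N.fld (N.tTU B) k))
          (N.am (N.fld (N.tTL B) (k + 1)) (N.fld (N.tTU B) (k + 1))) +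
          ((B.m4R / 2 ^ (55 - 2 * N.shf k)) / 840 + 1))
        (min (sec k) (B.m2R / 6 + 1)) := by
  unfold N.stF
  rw [hfrc, mn_eq, mn_eq, mx_eq, shr, nadd, nsub, nmul, nmul, ndiv, ndiv, ndiv, nsucc, nsucc, nsucc,
    nsucc, sec_eq]

theorem bfld (hb : ∀ (f : ℕ → ℕ) (n : ℕ), (∀ j < n, f j < 2 ^ 44) → ∀ k < n, N.fld (N.build f n) k = f k)
    (T e : ℕ → ℕ) (hT : ∀ k, T k < 2 ^ 44) (k : ℕ) (hk : k ≤ 1152) :
    N.fld (N.build (fun k => Nat.sub (T k) (e k)) 1153) k = T k - e k ∧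
    N.fld (N.build (fun k => N.mn 17592186044415 (Nat.add (T k) (e k))) 1153) k =
        min 17592186044415 (T k + e k) := by
  constructor
  · rw [hb _ 1153 (fun j _ => ?_) k (by omega), nsub]
    rw [nsub]
    exact lt_of_le_of_lt (Nat.sub_le _ _) (hT j)
  · rw [hb _ 1153 (fun j _ => ?_) k (by omega), mn_eq, nadd]
    rw [mn_eq]
    exact lt_of_le_of_lt (min_le_left _ _) (by norm_num)

theorem tabs (hSQ : GSQ) (hF : GFLD) (hG : GGRID) {A : ℕ} {B : N.Base} {θ : ℝ}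
    (hB : BaseFacts A B θ) (k : ℕ) (hk : k ≤ 1152) :
    (vR (N.fld (N.tPL B) k) - 1 ≤ f0 θ (xR k) ∧ f0 θ (xR k) ≤ vR (N.fld (N.tPU B) k) - 1 ∧
      N.fld (N.tPL B) k ≤ N.fld (N.tPU B) k) ∧
    (vR (N.fld (N.tSL B) k) - 1 ≤ f1 θ (xR k) ∧ f1 θ (xR k) ≤ vR (N.fld (N.tSU B) k) - 1) ∧
    (vR (N.fld (N.tTL B) k) - 1 ≤ f2 θ (xR k) ∧ f2 θ (xR k) ≤ vR (N.fld (N.tTU B) k) - 1) := by
  have h0 : 0 < θ := by linarith [hB.th0]
  have h1 := hB.th1
  have b0 := bfld hF.1 (fun k => N.fld B.T0 k) (fun k => N.err0 B k) (fun k => fld_lt _ _) k hk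
  have b1 := bfld hF.1 (fun k => N.fld B.T1 k) (fun k => N.err1 B k) (fun k => fld_lt _ _) k hk
  have b2 := bfld hF.1 (fun k => N.fld B.T2 k) (fun k => N.err2 B k) (fun k => fld_lt _ _) k hk
  have e0 : N.fld (N.tPL B) k = N.fld B.T0 k - N.err0 B k := b0.1
  have e0' : N.fld (N.tPU B) k = min 17592186044415 (N.fld B.T0 k + N.err0 B k) := b0.2
  have e1 : N.fld (N.tSL B) k = N.fld B.T1 k - N.err1 B k := b1.1
  have e1' : N.fld (N.tSU B) k = min 17592186044415 (N.fld B.T1 k + N.err1 B k) := b1.2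
  have e2 : N.fld (N.tTL B) k = N.fld B.T2 k - N.err2 B k := b2.1
  have e2' : N.fld (N.tTU B) k = min 17592186044415 (N.fld B.T2 k + N.err2 B k) := b2.2
  rw [e0, e0', e1, e1', e2, e2']
  have l0 := lohi (aBD h0 h1 (xR_nonneg k)).1 (err0_le hSQ hB k hk)
  have l1 := lohi (aBD h0 h1 (xR_nonneg k)).2.2.2.1 (err1_le hSQ hG hB k hk)
  have l2 := lohi (le_trans (f2_le_half h0 h1 (xR_nonneg k)) (by norm_num))
    (err2_le hSQ hG hB k hk)
  refine ⟨⟨l0.1, l0.2, ?_⟩, l1, l2⟩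
  have := fld_lt B.T0 k
  exact le_min (by omega) (by omega)

theorem st_le (hSQ : GSQ) (hF : GFLD) (hG : GGRID) {A : ℕ} {B : N.Base} {θ : ℝ}
    (hB : BaseFacts A B θ) (k : ℕ) (hk : k < 1152) (y : ℝ) (hy1 : xR k ≤ y) (hy2 : y ≤ xR (k + 1)) :
    |f2 θ y| ≤ vR (N.stF B k) := by
  have h0 : 0 < θ := by linarith [hB.th0]
  have h1 := hB.th1
  have hx0 := xR_nonneg k
  have hy0 : 0 ≤ y := le_trans hx0 hy1
  obtain ⟨hg1, hg2, hg3⟩ := hG.2.2.1 k hk
  have hw : xR (k + 1) - xR k = 2 ^ N.shf k / 2 ^ 26 := by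
    unfold xR aR; rw [hg1]; push_cast; ring
  have hwp : (0 : ℝ) < 2 ^ N.shf k / 2 ^ 26 := by positivity
  have bd := aBD h0 h1 hy0
  have t1 := (tabs hSQ hF hG hB k hk.le).2.2
  have t2 := (tabs hSQ hF hG hB (k + 1) hk).2.2
  rw [stF_eq hF.2.2.2.2.2.2]
  set a1 := N.am (N.fld (N.tTL B) k) (N.fld (N.tTU B) k) with ha1
  set a2 := N.am (N.fld (N.tTL B) (k + 1)) (N.fld (N.tTU B) (k + 1)) with ha2
  have am1 : |f2 θ (xR k)| ≤ vR a1 := am_le t1.1 t1.2
  have am2 : |f2 θ (xR (k + 1))| ≤ vR a2 := am_le t2.1 t2.2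
  clear_value a1 a2
  have c1 : |f2 θ y| ≤ vR (max a1 a2 + ((B.m4R / 2 ^ (55 - 2 * N.shf k)) / 840 + 1)) := by
    set h : ℝ := 2 ^ N.shf k / 2 ^ 26 with hh
    set l := (y - xR k) / h with hl
    have hl0 : 0 ≤ l := div_nonneg (by linarith) hwp.le
    have hl1 : l ≤ 1 := by rw [hl, div_le_one hwp]; linarith
    have hlh : xR k + l * h = y := by
      rw [hl, div_mul_cancel₀ _ hwp.ne']; ring
    have hxh : xR k + h = xR (k + 1) := by linarith
    have hch := (bCH θ h0 h1 (xR k) h l 0 0 hx0 hwp hl0 hl1).1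
    rw [hlh, hxh] at hch
    refine le_trans hch ?_
    rw [vR_add]
    refine add_le_add ?_ (m4_le _ _ hg3 hB.m4.1)
    exact max_le (le_trans am1 (vR_mono (le_max_left _ _))) (le_trans am2 (vR_mono (le_max_right _ _)))
  have c2 : |f2 θ y| ≤ vR (sec k) := by
    unfold sec
    split_ifs with h
    · rw [vR_one]
      exact le_trans (f2_le_half h0 h1 hy0) (by norm_num)
    · have hxp : 0 < N.xgN k := xg_pos hG hk.le (by omega)
      have hX : 0 < xR k := by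
        unfold xR aR
        have : (0 : ℝ) < N.xgN k := by exact_mod_cast hxp
        positivity
      have h5 : |f2 θ y| ≤ 0.55 / xR k := by
        rw [le_div_iff₀ hX, mul_comm]
        exact le_trans (mul_le_mul_of_nonneg_right hy1 (abs_nonneg _)) bd.2.2.2.2.2.2.1
      exact le_trans h5 (x55_le (N.xgN k) hxp)
  have c3 : |f2 θ y| ≤ vR (B.m2R / 6 + 1) :=
    le_trans bd.2.2.2.2.2.1 (m2_le _ hB.m2.1)
  rcases min_choice (max a1 a2 + ((B.m4R / 2 ^ (55 - 2 * N.shf k)) / 840 + 1))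
      (min (sec k) (B.m2R / 6 + 1)) with h | h
  · rw [h]; exact c1
  · rw [h]
    rcases min_choice (sec k) (B.m2R / 6 + 1) with h' | h'
    · rw [h']; exact c2
    · rw [h']; exact c3

theorem st_1 (hF : GFLD) (hG : GGRID) (B : N.Base) (k : ℕ) (hk : k < 1152) : N.stF B k ≤ 2 ^ 40 := by
  rw [stF_eq hF.2.2.2.2.2.2]
  exact le_trans (min_le_right _ _) (le_trans (min_le_left _ _) (sec_le hG k hk))

theorem st_fld (hF : GFLD) (hG : GGRID) (B : N.Base) (k : ℕ) (hk : k < 1152) :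
    N.fld (N.tST B) k = N.stF B k :=
  hF.1 _ 1152 (fun j hj => lt_of_le_of_lt (st_1 hF hG B j hj) (by norm_num)) k hk

theorem gTB : GTB := by
  intro hSQ hF hG A B θ hB
  exact {
    pl := fun k hk => (tabs hSQ hF hG hB k hk).1.1
    pu := fun k hk => (tabs hSQ hF hG hB k hk).1.2.1
    lu := fun k hk => (tabs hSQ hF hG hB k hk).1.2.2
    sl := fun k hk => (tabs hSQ hF hG hB k hk).2.1.1
    su := fun k hk => (tabs hSQ hF hG hB k hk).2.1.2
    tl := fun k hk => (tabs hSQ hF hG hB k hk).2.2.1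
    tu := fun k hk => (tabs hSQ hF hG hB k hk).2.2.2
    st := fun k hk y h1 h2 => by rw [st_fld hF hG B k hk]; exact st_le hSQ hF hG hB k hk y h1 h2
    s1 := fun k hk => by rw [st_fld hF hG B k hk]; exact st_1 hF hG B k hk }

end Pool.Agent.Helper20.PT
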